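import Pool.Agent.W973.CES.Defs

/-!
# Project CES: finite relations without simple cycles have a rank function
-/

set_option autoImplicit false

namespace Pool.Agent.W2.CES

open Pool.Agent.W973.CES Pool.Agent.NPC

/-- the restricted relation -/
def Rr (n : ℕ) (R : ℕ → ℕ → Prop) (i j : ℕ) : Prop := R i j ∧ i < n ∧ j < n

theorem irr (n : ℕ) (R : ℕ → ℕ → Prop) (hirr : ∀ i, ¬ R i i)
    (hno : ¬ ∃ (k : ℕ) (a : ZMod k → ℕ), 2 ≤ k ∧ Function.Injective a ∧ (∀ i, a i < n) ∧
      ∀ i, R (a i) (a (i + 1))) (x : ℕ) : ¬ Relation.TransGen (Rr n R) x x := by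
  classical
  intro hx
  let S : Set ℕ := {y | Relation.TransGen (Rr n R) x y ∧ Relation.TransGen (Rr n R) y x}
  have hS : ∀ y : ℕ, ∃ z : ℕ, y ∈ S → Rr n R y z ∧ z ∈ S := by
    intro y
    by_cases hy : y ∈ S
    · obtain ⟨h1, h2⟩ := hy
      rcases (Relation.TransGen.head'_iff).1 h2 with ⟨z, hz1, hz2⟩
      refine ⟨z, fun _ => ⟨hz1, h1.tail hz1, ?_⟩⟩
      rcases Relation.reflTransGen_iff_eq_or_transGen.1 hz2 with h | h
      · rw [← h]
        exact hx
      · exact h
    · exact ⟨0, fun h => absurd h hy⟩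
  choose s hs using hS
  have hxS : x ∈ S := ⟨hx, hx⟩
  have hit : ∀ (m : ℕ) (y : ℕ), y ∈ S → s^[m] y ∈ S := by
    intro m
    induction m with
    | zero => intro y hy; exact hy
    | succ m ih =>
      intro y hy
      rw [Function.iterate_succ_apply]
      exact ih (s y) (hs y hy).2
  have hlt : ∀ y ∈ S, y < n := fun y hy => (hs y hy).1.2.1
  have hfin : S.Finite := (Set.finite_lt_nat n).subset hlt
  obtain ⟨i, j, hij, he⟩ : ∃ i j : ℕ, i < j ∧ s^[i] x = s^[j] x := by
    have hnotinj : ¬ Function.Injective (fun m : ℕ => (⟨s^[m] x, hit m x hxS⟩ : S)) := by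
      have : Finite S := hfin
      intro h
      exact not_injective_infinite_finite _ h
    rw [Function.Injective] at hnotinj
    push Not at hnotinj
    obtain ⟨i, j, h1, h2⟩ := hnotinj
    have h3 : s^[i] x = s^[j] x := congrArg Subtype.val h1
    rcases lt_or_gt_of_ne h2 with h | h
    · exact ⟨i, j, h, h3⟩
    · exact ⟨j, i, h, h3.symm⟩
  set y : ℕ := s^[i] x with hy
  have hyS : y ∈ S := hit i x hxS
  have hper : Function.IsPeriodicPt s (j - i) y := by
    change s^[j - i] y = y
    rw [hy, ← Function.iterate_add_apply, Nat.sub_add_cancel hij.le]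
    exact he.symm
  have hk0 : 0 < Function.minimalPeriod s y := hper.minimalPeriod_pos (by omega)
  set k : ℕ := Function.minimalPeriod s y with hk
  have hk1 : k ≠ 1 := by
    intro h1
    have h2 : s^[k] y = y := Function.isPeriodicPt_minimalPeriod s y
    rw [h1, Function.iterate_one] at h2
    have h3 := (hs y hyS).1.1
    rw [h2] at h3
    exact hirr y h3
  have : NeZero k := ⟨by omega⟩
  apply hno
  refine ⟨k, fun i => s^[i.val] y, by omega, ?_, ?_, ?_⟩
  · intro a b hab
    have h1 := Function.iterate_injOn_Iio_minimalPeriod (f := s) (x := y)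
      (Set.mem_Iio.2 (ZMod.val_lt a)) (Set.mem_Iio.2 (ZMod.val_lt b)) hab
    exact ZMod.val_injective k h1
  · intro a
    exact hlt _ (hit _ y hyS)
  · intro a
    have h1 : s^[(a + 1).val] y = s (s^[a.val] y) := by
      rw [ZMod.val_add, ZMod.val_one_eq_one_mod, Nat.add_mod_mod]
      have h2 : s^[(a.val + 1) % k] y = s^[a.val + 1] y :=
        Function.iterate_mod_minimalPeriod_eq
      rw [h2]
      exact Function.iterate_succ_apply' s a.val y
    change R (s^[a.val] y) (s^[(a + 1).val] y)
    rw [h1]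
    exact (hs _ (hit _ y hyS)).1.1

theorem rank : S_RANK := by
  classical
  intro n R hirr hno
  refine ⟨fun i => ((Finset.range n).filter fun j => Relation.TransGen (Rr n R) i j).card,
    ?_, ?_⟩
  · intro i
    exact (Finset.card_filter_le _ _).trans (by rw [Finset.card_range])
  · intro i hi j hj hij
    apply Finset.card_lt_card
    rw [Finset.ssubset_iff_of_subset]
    · refine ⟨j, ?_, ?_⟩
      · rw [Finset.mem_filter, Finset.mem_range]
        exact ⟨hj, Relation.TransGen.single ⟨hij, hi, hj⟩⟩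
      · rw [Finset.mem_filter]
        rintro ⟨_, h⟩
        exact irr n R hirr hno j h
    · intro z hz
      rw [Finset.mem_filter] at hz ⊢
      exact ⟨hz.1, Relation.TransGen.head ⟨hij, hi, hj⟩ hz.2⟩

end Pool.Agent.W2.CES
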